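import Pool.Agent.Helper86.GMLower

/-!
# The volume constant of the geometric mean of convex bodies, `g_n = |B_2^n| / 2^n`

For origin-symmetric convex bodies `K, T ⊆ ℝⁿ` let `G(K,T)` be the common Hausdorff limit of the
arithmetic-harmonic iteration
`A₀ = K`, `H₀ = T`, `A_{k+1} = (A_k + H_k) / 2`, `H_{k+1} = ((A_k° + H_k°) / 2)°`.
We determine the largest constant `g_n` with `|G(K,T)| ≥ g_n √(|K| |T|)` for all `K`, `T`:
it equals `π^{n/2} / (2ⁿ Γ(n/2 + 1))`, the ratio of the volumes of the Euclidean ball and of the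
cube `[-1,1]ⁿ`. In particular there is no `c > 0` with `g_n ≥ cⁿ` for all `n`.
-/

open MeasureTheory Metric Set Filter Topology
open scoped Pointwise

namespace Pool.Agent.Results.MP_808d7a_gt.ExactConstant

open Pool.Agent.Helper86.GM

/-- `g` is an admissible constant in dimension `n`: `|G(K,T)| ≥ g √(|K| |T|)` for all
origin-symmetric convex bodies `K, T` in Euclidean `n`-space. -/
def IsAdmissible (n : ℕ) (g : ℝ) : Prop :=
  ∀ K T G : Set (EuclideanSpace ℝ (Fin n)), IsSymBody K → IsSymBody T → IsGeomMean K T G →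
    g * √(volume.real K * volume.real T) ≤ volume.real G

theorem isAdmissible_iff {n : ℕ} (hn : 1 ≤ n) (g : ℝ) :
    IsAdmissible n g ↔ g ≤ ballVol n / 2 ^ n := by
  constructor
  · intro h
    rw [← gConst_eq hn]
    have hb := isSymBody_ball (V := E n)
    refine le_csInf ⟨_, closedBall 0 1, closedBall 0 1, geomMean _ _, hb, hb,
      isGeomMean_geomMean hb hb, rfl⟩ ?_
    rintro r ⟨K, T, G, hK, hT, hG, rfl⟩
    have h2 : 0 < √(volume.real K * volume.real T) :=
      Real.sqrt_pos.2 (mul_pos hK.volume_pos hT.volume_pos)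
    rw [le_div_iff₀ h2]
    exact h K T G hK hT hG
  · intro h K T G hK hT hG
    rw [(isGeomMean_iff hK hT).1 hG]
    refine le_trans ?_ (ratio_ge hn hK hT)
    exact mul_le_mul_of_nonneg_right h (Real.sqrt_nonneg _)

theorem value_eq {n : ℕ} (hn : 1 ≤ n) :
    ballVol n / 2 ^ n = Real.pi ^ ((n : ℝ) / 2) / (2 ^ n * Real.Gamma ((n : ℝ) / 2 + 1)) := by
  rw [ballVol_eq hn, div_div, mul_comm (Real.Gamma _)]

theorem exists_lt {c : ℝ} (hc : 0 < c) :
    ∃ n : ℕ, 1 ≤ n ∧
      Real.pi ^ ((n : ℝ) / 2) / (2 ^ n * Real.Gamma ((n : ℝ) / 2 + 1)) < c ^ n := by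
  have h := FloorSemiring.tendsto_pow_div_factorial_atTop (Real.pi / (4 * c ^ 2))
  obtain ⟨m, hm1, hm⟩ := ((eventually_ge_atTop 1).and
    (h.eventually (gt_mem_nhds (zero_lt_one' ℝ)))).exists
  refine ⟨2 * m, by omega, ?_⟩
  have h1 : (((2 * m : ℕ) : ℝ) / 2) = m := by push_cast; ring
  rw [h1, Real.rpow_natCast, Real.Gamma_nat_eq_factorial]
  have h2 : (0 : ℝ) < m.factorial := by exact_mod_cast Nat.factorial_pos m
  rw [div_lt_iff₀ (by positivity)]
  rw [div_lt_one h2, div_pow, div_lt_iff₀ (by positivity), mul_pow] at hm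
  calc Real.pi ^ m < (m.factorial : ℝ) * (4 ^ m * (c ^ 2) ^ m) := hm
    _ = c ^ (2 * m) * (2 ^ (2 * m) * (m.factorial : ℝ)) := by
      rw [pow_mul, pow_mul]; norm_num; ring

/-- The geometric mean `G(K,T)` exists and is unique for origin-symmetric convex bodies, the
largest constant `g_n` with `|G(K,T)| ≥ g_n √(|K| |T|)` is `π^{n/2} / (2ⁿ Γ(n/2+1))` for every
`n ≥ 1`, and consequently no `c > 0` satisfies `|G(K,T)| ≥ cⁿ √(|K| |T|)` in all dimensions. -/
theorem result :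
    (∀ (n : ℕ) (K T : Set (EuclideanSpace ℝ (Fin n))), IsSymBody K → IsSymBody T →
      ∃! G : Set (EuclideanSpace ℝ (Fin n)), IsGeomMean K T G) ∧
    (∀ n : ℕ, 1 ≤ n → IsGreatest {g : ℝ | IsAdmissible n g}
      (Real.pi ^ ((n : ℝ) / 2) / (2 ^ n * Real.Gamma ((n : ℝ) / 2 + 1)))) ∧
    ¬ ∃ c : ℝ, 0 < c ∧ ∀ n : ℕ, 1 ≤ n → IsAdmissible n (c ^ n) := by
  refine ⟨?_, ?_, ?_⟩
  · intro n K T hK hT
    exact ⟨geomMean K T, isGeomMean_geomMean hK hT,
      fun G hG => (isGeomMean_iff hK hT).1 hG⟩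
  · intro n hn
    rw [← value_eq hn]
    exact ⟨(isAdmissible_iff hn _).2 le_rfl, fun g hg => (isAdmissible_iff hn g).1 hg⟩
  · rintro ⟨c, hc, h⟩
    obtain ⟨n, hn, hlt⟩ := exists_lt hc
    have h1 := (isAdmissible_iff hn _).1 (h n hn)
    rw [value_eq hn] at h1
    exact absurd h1 (not_le.2 hlt)

end Pool.Agent.Results.MP_808d7a_gt.ExactConstant
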